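import Pool.Agent.H631.BG.Fin1

/-! For every `μ > 0` there is a pair potential with attractive part, positive scattering length `a` and no
`N`-body bound states, for which the energy per particle at low density is at most `½ · 4πμρa`. -/

open MeasureTheory Filter Topology Set
open scoped ENNReal NNReal BigOperators

namespace Pool.Agent.Results.MP_b790f8_mp.ClusterGas

open BG631

/-- **Main theorem.** For every `μ > 0` there is a measurable, compactly supported pair potential `v`, bounded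
below, with scattering length `a > 0` and without `N`-body bound states, such that for all small `ρ > 0` and all
large `L` the ground state energies of `⌊ρL³⌋` bosons in the cube of side `L` (Dirichlet and Neumann boundary
conditions) are at most `½ · 4πμρa` per particle; hence `e₀(ρ) / (4πμρa)` does not tend to `1` as `ρ → 0`. -/
theorem result (μ : ℝ) (hμ : 0 < μ) :
    ∃ (v : ℝ → ℝ) (a : ℝ), Measurable v ∧ (∃ R : ℝ, ∀ r, R ≤ r → v r = 0) ∧ (∃ b : ℝ, ∀ r, -b ≤ v r) ∧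
      0 < a ∧ HasScatLen μ v a ∧ NoBoundStates μ v ∧
      (∃ ρ₀ : ℝ, 0 < ρ₀ ∧ ∀ ρ : ℝ, 0 < ρ → ρ < ρ₀ → ∀ᶠ L : ℝ in atTop,
        (DirEnergies μ v ⌊ρ * L ^ 3⌋₊ L).Nonempty ∧ BddBelow (DirEnergies μ v ⌊ρ * L ^ 3⌋₊ L) ∧
        BddBelow (NeuEnergies μ v ⌊ρ * L ^ 3⌋₊ L) ∧
        E0 μ v ⌊ρ * L ^ 3⌋₊ L / (ρ * L ^ 3) ≤ 1 / 2 * (4 * Real.pi * μ * ρ * a) ∧
        E0N μ v ⌊ρ * L ^ 3⌋₊ L / (ρ * L ^ 3) ≤ 1 / 2 * (4 * Real.pi * μ * ρ * a)) ∧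
      (∀ e₀ : ℝ → ℝ,
        ((∀ᶠ ρ in 𝓝[>] (0 : ℝ),
            Tendsto (fun L : ℝ => E0 μ v ⌊ρ * L ^ 3⌋₊ L / (ρ * L ^ 3)) atTop (𝓝 (e₀ ρ))) ∨
          (∀ᶠ ρ in 𝓝[>] (0 : ℝ),
            Tendsto (fun L : ℝ => E0N μ v ⌊ρ * L ^ 3⌋₊ L / (ρ * L ^ 3)) atTop (𝓝 (e₀ ρ)))) →
        ¬ Tendsto (fun ρ => e₀ ρ / (4 * Real.pi * μ * ρ * a)) (𝓝[>] (0 : ℝ)) (𝓝 1)) := by
  obtain ⟨v, a, h1, h2, ⟨b, h3⟩, h4, h5, h6, h7⟩ := main μ hμ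
  have hpi := Real.pi_pos
  have hkey : ∀ ρ : ℝ, 0 < ρ → ρ < 1 / 10 ^ 8 → ∀ᶠ L : ℝ in atTop,
      (DirEnergies μ v ⌊ρ * L ^ 3⌋₊ L).Nonempty ∧ BddBelow (DirEnergies μ v ⌊ρ * L ^ 3⌋₊ L) ∧
      BddBelow (NeuEnergies μ v ⌊ρ * L ^ 3⌋₊ L) ∧
      E0 μ v ⌊ρ * L ^ 3⌋₊ L / (ρ * L ^ 3) ≤ 1 / 2 * (4 * Real.pi * μ * ρ * a) ∧
      E0N μ v ⌊ρ * L ^ 3⌋₊ L / (ρ * L ^ 3) ≤ 1 / 2 * (4 * Real.pi * μ * ρ * a) := by
    intro ρ hρ hρ1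
    filter_upwards [h7 ρ hρ hρ1, eventually_gt_atTop (0 : ℝ)] with L hL hL0
    obtain ⟨χ, k1, k2⟩ := hL
    have hmem : energy μ v χ ∈ DirEnergies μ v ⌊ρ * L ^ 3⌋₊ L := ⟨χ, k1, rfl⟩
    have hbd : BddBelow (DirEnergies μ v ⌊ρ * L ^ 3⌋₊ L) := by
      refine ⟨0, ?_⟩
      rintro e ⟨ψ, hψ, rfl⟩
      exact h6 _ ψ hψ.state
    have hE : E0 μ v ⌊ρ * L ^ 3⌋₊ L ≤ 16 * Real.pi * μ * ρ * (ρ * L ^ 3) := (csInf_le hbd hmem).trans k2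
    have hEN := JE.E0N_le_E0 ⌊ρ * L ^ 3⌋₊ μ hμ.le v b h3 L ⟨_, hmem⟩
    have hX : 0 < ρ * L ^ 3 := by positivity
    have hfin : 16 * Real.pi * μ * ρ ≤ 1 / 2 * (4 * Real.pi * μ * ρ * a) := by
      have : 0 < Real.pi * μ * ρ := by positivity
      nlinarith
    refine ⟨⟨_, hmem⟩, hbd, JE.bddBelow_neu _ μ hμ.le v b h3 L, ?_, ?_⟩
    · rw [div_le_iff₀ hX]
      exact hE.trans (mul_le_mul_of_nonneg_right hfin hX.le)
    · rw [div_le_iff₀ hX]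
      exact (hEN.trans hE).trans (mul_le_mul_of_nonneg_right hfin hX.le)
  refine ⟨v, a, h1, ⟨9, h2⟩, ⟨b, h3⟩, by linarith, h5, h6, ⟨1 / 10 ^ 8, by norm_num, hkey⟩, ?_⟩
  intro e₀ he hlim
  have hev : ∀ᶠ ρ in 𝓝[>] (0 : ℝ), e₀ ρ / (4 * Real.pi * μ * ρ * a) ≤ 1 / 2 := by
    have h8 : ∀ᶠ ρ in 𝓝[>] (0 : ℝ), 0 < ρ ∧ ρ < 1 / 10 ^ 8 := by
      have := Ioo_mem_nhdsGT (show (0 : ℝ) < 1 / 10 ^ 8 by norm_num)
      filter_upwards [this] with ρ hρ using hρ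
    have hdiv : ∀ ρ : ℝ, 0 < ρ → e₀ ρ ≤ 1 / 2 * (4 * Real.pi * μ * ρ * a) →
        e₀ ρ / (4 * Real.pi * μ * ρ * a) ≤ 1 / 2 := by
      intro ρ hρ h
      rw [div_le_iff₀ (by positivity)]
      exact h
    rcases he with he | he
    · filter_upwards [h8, he] with ρ hρ hT
      refine hdiv ρ hρ.1 (le_of_tendsto hT ?_)
      filter_upwards [hkey ρ hρ.1 hρ.2] with L hL using hL.2.2.2.1
    · filter_upwards [h8, he] with ρ hρ hT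
      refine hdiv ρ hρ.1 (le_of_tendsto hT ?_)
      filter_upwards [hkey ρ hρ.1 hρ.2] with L hL using hL.2.2.2.2
  have := le_of_tendsto hlim hev
  norm_num at this

end Pool.Agent.Results.MP_b790f8_mp.ClusterGas
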